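import Pool.Agent.U41.QB.Quad

/-!
# The character sum of the sextic `-3 (16 b³ x⁶ - 15 a b² x⁴ y² - 15 a² b x² y⁴ + 16 a³ y⁶)`
-/

set_option autoImplicit false

namespace Pool.Agent.U41.QB

open Finset

/-- the binary cubic form -/
def GG {R : Type*} [CommRing R] (u v : R) : R := 16 * u ^ 3 - 15 * u ^ 2 * v - 15 * u * v ^ 2 + 16 * v ^ 3

/-- the binary sextic form -/
def FF {R : Type*} [CommRing R] (a b x y : R) : R := -3 * GG (b * x ^ 2) (a * y ^ 2)

section
variable {F : Type*} [Field F] [Fintype F] [DecidableEq F]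

/-- the character sum of the twist by `a` of `X_0(49)` -/
def TT (a : F) : ℤ := ∑ z : F, quadraticChar F (z * (z ^ 2 + 21 * a * z + 112 * a ^ 2))

theorem GG_symm {R : Type*} [CommRing R] (u v : R) : GG u v = GG v u := by
  unfold GG; ring

omit [Fintype F] [DecidableEq F] in
theorem two_ne (hF : ringChar F ≠ 2) : (2 : F) ≠ 0 := Ring.two_ne_zero hF

theorem sum_GG (h2 : (2 : F) ≠ 0) (h3 : (3 : F) ≠ 0) (a : F) :
    ∑ u : F, quadraticChar F (-3 * GG u a) = TT a := by
  have h16 : (16 : F) ≠ 0 := by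
    have : (16 : F) = 2 ^ 4 := by norm_num
    rw [this]; exact pow_ne_zero 4 h2
  have hm3 : (-3 : F) ≠ 0 := neg_ne_zero.2 h3
  have h9 : (9 : F) ≠ 0 := by
    have : (9 : F) = 3 ^ 2 := by norm_num
    rw [this]; exact pow_ne_zero 2 h3
  have e1 : ∑ τ : F, quadraticChar F (τ * (16 * τ ^ 2 + 21 * a * τ + 7 * a ^ 2)) =
      ∑ u : F, quadraticChar F (-3 * GG u a) := by
    refine Fintype.sum_equiv ((Equiv.mulLeft₀ (-3 : F) hm3).trans (Equiv.subRight a)) _ _ fun τ => ?_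
    show _ = quadraticChar F (-3 * GG (-3 * τ - a) a)
    have e : -3 * GG (-3 * τ - a) a = τ * (16 * τ ^ 2 + 21 * a * τ + 7 * a ^ 2) * 9 ^ 2 := by
      unfold GG; ring
    rw [e, qc_mul_sq h9]
  have e2 : ∑ τ : F, quadraticChar F (τ * (16 * τ ^ 2 + 21 * a * τ + 7 * a ^ 2)) = TT a := by
    unfold TT
    refine Fintype.sum_equiv (Equiv.mulLeft₀ (16 : F) h16) _ _ fun τ => ?_
    show _ = quadraticChar F (16 * τ * ((16 * τ) ^ 2 + 21 * a * (16 * τ) + 112 * a ^ 2))
    have e : 16 * τ * ((16 * τ) ^ 2 + 21 * a * (16 * τ) + 112 * a ^ 2) =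
        τ * (16 * τ ^ 2 + 21 * a * τ + 7 * a ^ 2) * 16 ^ 2 := by ring
    rw [e, qc_mul_sq h16]
  rw [← e1, e2]

theorem sum_GG_mul (h2 : (2 : F) ≠ 0) (h3 : (3 : F) ≠ 0) (a : F) {b : F} (hb : b ≠ 0) :
    ∑ w : F, quadraticChar F (-3 * GG (b * w) a) = TT a := by
  rw [← sum_GG h2 h3 a]
  exact Fintype.sum_equiv (Equiv.mulLeft₀ b hb) _ _ fun w => rfl

theorem sum_t (hF : ringChar F ≠ 2) (h3 : (3 : F) ≠ 0) {a b : F} (ha : a ≠ 0) (hb : b ≠ 0) :
    ∑ t : F, quadraticChar F (-3 * GG (b * t ^ 2) a) = TT a + TT b - quadraticChar F (-3 * b) := by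
  have h2 := two_ne hF
  rw [sum_sq hF (fun w : F => quadraticChar F (-3 * GG (b * w) a))]
  simp_rw [add_mul, one_mul]
  rw [Finset.sum_add_distrib, sum_GG_mul h2 h3 a hb]
  have e1 : ∑ w : F, quadraticChar F w * quadraticChar F (-3 * GG (b * w) a) =
      ∑ w : F, quadraticChar F w⁻¹ * quadraticChar F (-3 * GG (b * w⁻¹) a) := by
    symm
    exact Fintype.sum_bijective (fun w : F => w⁻¹) (inv_involutive.bijective) _ _ fun w => rfl
  have e2 : ∀ w : F, quadraticChar F w⁻¹ * quadraticChar F (-3 * GG (b * w⁻¹) a) =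
      quadraticChar F (-3 * GG (a * w) b) - if w = 0 then quadraticChar F (-3 * b) else 0 := by
    intro w
    split_ifs with hw
    · rw [hw, inv_zero, MulChar.map_zero, zero_mul, mul_zero]
      have : -3 * GG 0 b = -3 * b * (4 * b) ^ 2 := by unfold GG; ring
      have h4 : (4 : F) ≠ 0 := by
        have : (4 : F) = 2 ^ 2 := by norm_num
        rw [this]; exact pow_ne_zero 2 h2
      rw [this, qc_mul_sq (mul_ne_zero h4 hb), sub_self]
    · rw [sub_zero, ← map_mul]
      have : -3 * GG (a * w) b = w⁻¹ * (-3 * GG (b * w⁻¹) a) * (w ^ 2) ^ 2 := by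
        unfold GG; field_simp; ring
      rw [this, qc_mul_sq (pow_ne_zero 2 hw)]
  rw [e1]
  simp_rw [e2]
  rw [Finset.sum_sub_distrib, sum_GG_mul h2 h3 b ha]
  simp
  ring

/-- **the sum of the values of the sextic** -/
theorem sum_FF (hF : ringChar F ≠ 2) (h3 : (3 : F) ≠ 0) {a b : F} (ha : a ≠ 0) (hb : b ≠ 0) :
    ∑ y : F, ∑ x : F, quadraticChar F (FF a b x y) = (Fintype.card F - 1) * (TT a + TT b) := by
  have h2 := two_ne hF
  have h4 : (4 : F) ≠ 0 := by
    have : (4 : F) = 2 ^ 2 := by norm_num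
    rw [this]; exact pow_ne_zero 2 h2
  have h1 : ∀ y : F, ∑ x : F, quadraticChar F (FF a b x y) =
      (TT a + TT b - quadraticChar F (-3 * b)) +
        if y = 0 then (Fintype.card F : ℤ) * quadraticChar F (-3 * b) - (TT a + TT b) else 0 := by
    intro y
    split_ifs with hy
    · rw [hy]
      have e1 : ∀ x : F, quadraticChar F (FF a b x 0) =
          quadraticChar F (-3 * b) - if x = 0 then quadraticChar F (-3 * b) else 0 := by
        intro x
        split_ifs with hx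
        · rw [hx, sub_self]
          have : FF a b 0 0 = 0 := by unfold FF GG; ring
          rw [this, MulChar.map_zero]
        · have : FF a b x 0 = -3 * b * (4 * b * x ^ 3) ^ 2 := by unfold FF GG; ring
          rw [this, qc_mul_sq (mul_ne_zero (mul_ne_zero h4 hb) (pow_ne_zero 3 hx)), sub_zero]
      simp_rw [e1]
      rw [Finset.sum_sub_distrib, Finset.sum_const, Finset.card_univ, nsmul_eq_mul]
      simp
    · rw [add_zero, ← sum_t hF h3 ha hb]
      symm
      refine Fintype.sum_equiv (Equiv.mulLeft₀ y hy) _ _ fun t => ?_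
      show _ = quadraticChar F (FF a b (y * t) y)
      have : FF a b (y * t) y = -3 * GG (b * t ^ 2) a * (y ^ 3) ^ 2 := by unfold FF GG; ring
      rw [this, qc_mul_sq (pow_ne_zero 3 hy)]
  simp_rw [h1]
  rw [Finset.sum_add_distrib, Finset.sum_const, Finset.card_univ, nsmul_eq_mul]
  simp
  ring

end

/-- the sextic has no multiple zeros -/
theorem no_mult {F : Type*} [Field F] (h2 : (2 : F) ≠ 0) (h3 : (3 : F) ≠ 0) (h7 : (7 : F) ≠ 0)
    {a b x y : F} (ha : a ≠ 0) (hb : b ≠ 0) (h0 : GG (b * x ^ 2) (a * y ^ 2) = 0)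
    (hx : x * (48 * (b * x ^ 2) ^ 2 - 30 * (b * x ^ 2) * (a * y ^ 2) - 15 * (a * y ^ 2) ^ 2) = 0)
    (hy : y * (48 * (a * y ^ 2) ^ 2 - 30 * (b * x ^ 2) * (a * y ^ 2) - 15 * (b * x ^ 2) ^ 2) = 0) :
    x = 0 ∧ y = 0 := by
  have h16 : (16 : F) ≠ 0 := by
    have : (16 : F) = 2 ^ 4 := by norm_num
    rw [this]; exact pow_ne_zero 4 h2
  by_cases x0 : x = 0
  · refine ⟨x0, ?_⟩
    rw [x0] at h0
    have : 16 * (a * y ^ 2) ^ 3 = 0 := by
      rw [← h0]; unfold GG; ring
    have h5 := pow_eq_zero_iff (by norm_num) |>.1 ((mul_eq_zero.1 this).resolve_left h16)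
    exact pow_eq_zero_iff (by norm_num) |>.1 ((mul_eq_zero.1 h5).resolve_left ha)
  by_cases y0 : y = 0
  · exfalso
    rw [y0] at h0
    have : 16 * (b * x ^ 2) ^ 3 = 0 := by
      rw [← h0]; unfold GG; ring
    have h5 := pow_eq_zero_iff (by norm_num) |>.1 ((mul_eq_zero.1 this).resolve_left h16)
    exact x0 (pow_eq_zero_iff (by norm_num) |>.1 ((mul_eq_zero.1 h5).resolve_left hb))
  exfalso
  have hx' := (mul_eq_zero.1 hx).resolve_left x0
  have hy' := (mul_eq_zero.1 hy).resolve_left y0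
  have hu : b * x ^ 2 ≠ 0 := mul_ne_zero hb (pow_ne_zero 2 x0)
  generalize b * x ^ 2 = u at *
  generalize a * y ^ 2 = v at *
  have e1 : 9 * 7 * (u ^ 2 - v ^ 2) = 0 := by linear_combination hx' - hy'
  have h9 : (9 : F) ≠ 0 := by
    have : (9 : F) = 3 ^ 2 := by norm_num
    rw [this]; exact pow_ne_zero 2 h3
  have e2 : u ^ 2 - v ^ 2 = 0 := (mul_eq_zero.1 e1).resolve_left (mul_ne_zero h9 h7)
  have e3 : 3 * (u * (11 * u - 10 * v)) = 0 := by linear_combination hx' - 15 * e2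
  have e4 : 11 * u - 10 * v = 0 :=
    (mul_eq_zero.1 ((mul_eq_zero.1 e3).resolve_left h3)).resolve_left hu
  have e5 : 3 * (7 * u ^ 2) = 0 := by
    linear_combination (11 * u + 10 * v) * e4 - 100 * e2
  exact hu (pow_eq_zero_iff (by norm_num) |>.1
    ((mul_eq_zero.1 ((mul_eq_zero.1 e5).resolve_left h3)).resolve_left h7))

end Pool.Agent.U41.QB
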