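import Mathlib

/-!
# The number of zeros of quadratic forms over finite fields of odd characteristic
-/

set_option autoImplicit false

namespace Pool.Agent.U41.QB

open Finset

section
variable {F : Type*} [Field F] [Fintype F] [DecidableEq F]

/-- summation over squares -/
theorem sum_sq (hF : ringChar F ≠ 2) (g : F → ℤ) :
    ∑ y : F, g (y ^ 2) = ∑ w : F, (1 + quadraticChar F w) * g w := by
  have h1 : ∑ y : F, g (y ^ 2) = ∑ w : F, ∑ y ∈ univ.filter (fun y : F => y ^ 2 = w), g (y ^ 2) :=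
    (Finset.sum_fiberwise univ (fun y : F => y ^ 2) (fun y => g (y ^ 2))).symm
  rw [h1]
  refine Finset.sum_congr rfl fun w _ => ?_
  have h2 : ∑ y ∈ univ.filter (fun y : F => y ^ 2 = w), g (y ^ 2) =
      ∑ y ∈ univ.filter (fun y : F => y ^ 2 = w), g w :=
    Finset.sum_congr rfl fun y hy => by rw [(Finset.mem_filter.1 hy).2]
  rw [h2, Finset.sum_const, nsmul_eq_mul]
  have h3 := quadraticChar_card_sqrts hF w
  have h4 : (univ.filter (fun y : F => y ^ 2 = w)).card = {x : F | x ^ 2 = w}.toFinset.card := by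
    congr 1
    ext y
    simp
  rw [h4]
  have h5 : (({x : F | x ^ 2 = w}.toFinset.card : ℕ) : ℤ) = quadraticChar F w + 1 := h3
  rw [h5]
  ring

theorem neg_one_ne : quadraticChar F (-1) * quadraticChar F (-1) = 1 := by
  rw [← map_mul]; simp

theorem qc_sq {x : F} (hx : x ≠ 0) : quadraticChar F (x ^ 2) = 1 := quadraticChar_sq_one' hx

theorem qc_mul_sq {x y : F} (hy : y ≠ 0) : quadraticChar F (x * y ^ 2) = quadraticChar F x := by
  rw [map_mul, qc_sq hy, mul_one]

theorem qc_inv {x : F} (hx : x ≠ 0) : quadraticChar F x⁻¹ = quadraticChar F x := by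
  have h : x⁻¹ = x * (x⁻¹) ^ 2 := by field_simp
  rw [h, qc_mul_sq (inv_ne_zero hx)]

/-- `∑ η(w (t - d w))` -/
theorem sum_lin (hF : ringChar F ≠ 2) {d t : F} (hd : d ≠ 0) (ht : t ≠ 0) :
    ∑ w : F, quadraticChar F (w * (t - d * w)) = - quadraticChar F (-d) := by
  have hinv : (quadraticChar F)⁻¹ = quadraticChar F := (quadraticChar_isQuadratic F).inv
  have hJ := jacobiSum_nontrivial_inv (quadraticChar_ne_one hF)
  rw [hinv, jacobiSum] at hJ
  have hc : t * d⁻¹ ≠ 0 := mul_ne_zero ht (inv_ne_zero hd)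
  have h1 : ∑ w : F, quadraticChar F (w * (t - d * w)) =
      ∑ x : F, quadraticChar F d * (quadraticChar F x * quadraticChar F (1 - x)) := by
    symm
    refine Fintype.sum_equiv (Equiv.mulLeft₀ (t * d⁻¹) hc) _ _ fun x => ?_
    show _ = quadraticChar F (t * d⁻¹ * x * (t - d * (t * d⁻¹ * x)))
    have e1 : t * d⁻¹ * x * (t - d * (t * d⁻¹ * x)) = d * (x * (1 - x)) * (t * d⁻¹) ^ 2 := by
      field_simp
    rw [e1, qc_mul_sq hc, map_mul, map_mul]
  rw [h1, ← Finset.mul_sum, hJ]
  have e2 : (-d : F) = (-1) * d := by ring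
  rw [e2, map_mul]
  ring

/-- `∑ η(t - d y²)` -/
theorem sum_sub_sq (hF : ringChar F ≠ 2) {d : F} (hd : d ≠ 0) (t : F) :
    ∑ y : F, quadraticChar F (t - d * y ^ 2) =
      quadraticChar F (-d) * ((if t = 0 then (Fintype.card F : ℤ) else 0) - 1) := by
  by_cases ht : t = 0
  · rw [if_pos ht, ht]
    have h1 : ∀ y : F, quadraticChar F (0 - d * y ^ 2) =
        quadraticChar F (-d) * (1 - if y = 0 then 1 else 0) := by
      intro y
      split_ifs with hy
      · rw [hy]; simp
      · rw [show (0 : F) - d * y ^ 2 = (-d) * y ^ 2 by ring, qc_mul_sq hy]; ring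
    simp_rw [h1]
    rw [← Finset.mul_sum, Finset.sum_sub_distrib]
    simp
  · rw [if_neg ht]
    have h1 := sum_sq hF (fun w : F => quadraticChar F (t - d * w))
    rw [h1]
    have h2 : ∀ w : F, (1 + quadraticChar F w) * quadraticChar F (t - d * w) =
        quadraticChar F (t - d * w) + quadraticChar F (w * (t - d * w)) := by
      intro w
      rw [map_mul]; ring
    simp_rw [h2]
    rw [Finset.sum_add_distrib, sum_lin hF hd ht]
    have h3 : ∑ w : F, quadraticChar F (t - d * w) = 0 := by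
      have e : ∑ w : F, quadraticChar F (t - d * w) = ∑ w : F, quadraticChar F w := by
        refine Fintype.sum_equiv ((Equiv.mulLeft₀ d hd).trans (Equiv.subLeft t)) _ _ fun x => ?_
        rfl
      rw [e, quadraticChar_sum_zero hF]
    rw [h3]
    ring

/-- the number of the `y` with `d y² = t` -/
theorem sum_eq_sq (hF : ringChar F ≠ 2) {d : F} (hd : d ≠ 0) (t : F) :
    ∑ y : F, (if t - d * y ^ 2 = 0 then (1 : ℤ) else 0) = 1 + quadraticChar F (t * d) := by
  have h1 := sum_sq hF (fun w : F => if t - d * w = 0 then (1 : ℤ) else 0)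
  rw [h1, Finset.sum_eq_single (t * d⁻¹)]
  · have h2 : t - d * (t * d⁻¹) = 0 := by field_simp; ring
    rw [if_pos h2, mul_one, map_mul, map_mul, qc_inv hd]
  · intro w _ hw
    rw [if_neg, mul_zero]
    intro h
    apply hw
    have : t = d * w := by linear_combination h
    rw [this]; field_simp
  · intro h
    exact absurd (Finset.mem_univ _) h

/-- the number of the representations of `t` by `∑ d i x i ^ 2` -/
def M {n : ℕ} (d : Fin n → F) (t : F) : ℤ :=
  ∑ y : Fin n → F, if ∑ i, d i * y i ^ 2 = t then 1 else 0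

theorem M_rec {n : ℕ} (d : Fin (n + 1) → F) (i : Fin (n + 1)) (t : F) :
    M d t = ∑ y : F, M (fun j => d (i.succAbove j)) (t - d i * y ^ 2) := by
  unfold M
  rw [← Fintype.sum_prod_type']
  symm
  refine Fintype.sum_equiv (Fin.insertNthEquiv (fun _ => F) i) _ _ fun x => ?_
  have h : ∑ j, d j * (Fin.insertNthEquiv (fun _ => F) i x) j ^ 2 =
      d i * x.1 ^ 2 + ∑ j, d (i.succAbove j) * x.2 j ^ 2 := by
    rw [Fin.sum_univ_succAbove _ i]
    simp [Fin.insertNthEquiv]
  rw [h]
  refine if_congr ?_ rfl rfl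
  constructor
  · intro h; rw [h]; ring
  · intro h; rw [← h]; ring

theorem M_formula (hF : ringChar F ≠ 2) (m : ℕ) :
    (∀ d : Fin (2 * m) → F, (∀ i, d i ≠ 0) → ∀ t : F, (Fintype.card F : ℤ) * M d t =
      (Fintype.card F : ℤ) ^ (2 * m) + quadraticChar F ((-1) ^ m * ∏ i, d i) *
        (Fintype.card F : ℤ) ^ m * ((if t = 0 then (Fintype.card F : ℤ) else 0) - 1)) ∧
    (∀ d : Fin (2 * m + 1) → F, (∀ i, d i ≠ 0) → ∀ t : F, M d t =
      (Fintype.card F : ℤ) ^ (2 * m) + quadraticChar F ((-1) ^ m * (t * ∏ i, d i)) *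
        (Fintype.card F : ℤ) ^ m) := by
  have hq : (Fintype.card F : ℤ) ≠ 0 := by exact_mod_cast Fintype.card_ne_zero
  set q : ℤ := (Fintype.card F : ℤ) with hqd
  have even_odd : ∀ m : ℕ, (∀ d : Fin (2 * m) → F, (∀ i, d i ≠ 0) → ∀ t : F, q * M d t =
      q ^ (2 * m) + quadraticChar F ((-1) ^ m * ∏ i, d i) * q ^ m *
        ((if t = 0 then q else 0) - 1)) →
      (∀ d : Fin (2 * m + 1) → F, (∀ i, d i ≠ 0) → ∀ t : F, M d t =
      q ^ (2 * m) + quadraticChar F ((-1) ^ m * (t * ∏ i, d i)) * q ^ m) := by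
    intro m hm d hd t
    have h1 := M_rec d 0 t
    have h2 : q * M d t = ∑ y : F, q * M (fun j => d ((0 : Fin (2 * m + 1)).succAbove j))
        (t - d 0 * y ^ 2) := by
      rw [h1, Finset.mul_sum]
    have h3 : ∀ y : F, q * M (fun j => d ((0 : Fin (2 * m + 1)).succAbove j)) (t - d 0 * y ^ 2) =
        q ^ (2 * m) + quadraticChar F ((-1) ^ m * ∏ j, d ((0 : Fin (2 * m + 1)).succAbove j)) *
          q ^ m * (q * (if t - d 0 * y ^ 2 = 0 then (1 : ℤ) else 0) - 1) := by
      intro y
      rw [hm _ (fun j => hd _)]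
      congr 2
      split_ifs <;> simp
    simp_rw [h3] at h2
    rw [Finset.sum_add_distrib, Finset.sum_const, ← Finset.mul_sum, Finset.sum_sub_distrib,
      ← Finset.mul_sum, sum_eq_sq hF (hd 0), Finset.sum_const, Finset.card_univ,
      nsmul_eq_mul, nsmul_eq_mul] at h2
    apply mul_left_cancel₀ hq
    rw [h2, Fin.prod_univ_succAbove d 0]
    have h4 : quadraticChar F ((-1) ^ m * (t * (d 0 * ∏ j, d ((0 : Fin (2 * m + 1)).succAbove j)))) =
        quadraticChar F ((-1) ^ m * ∏ j, d ((0 : Fin (2 * m + 1)).succAbove j)) *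
          quadraticChar F (t * d 0) := by
      rw [← map_mul]; congr 1; ring
    rw [h4, ← hqd]
    ring
  have odd_even : ∀ m : ℕ, (∀ d : Fin (2 * m + 1) → F, (∀ i, d i ≠ 0) → ∀ t : F, M d t =
      q ^ (2 * m) + quadraticChar F ((-1) ^ m * (t * ∏ i, d i)) * q ^ m) →
      (∀ d : Fin (2 * m + 1 + 1) → F, (∀ i, d i ≠ 0) → ∀ t : F, q * M d t =
      q ^ (2 * (m + 1)) + quadraticChar F ((-1) ^ (m + 1) * ∏ i, d i) * q ^ (m + 1) *
        ((if t = 0 then q else 0) - 1)) := by
    intro m hm d hd t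
    have h1 := M_rec d 0 t
    have h3 : ∀ y : F, M (fun j => d ((0 : Fin (2 * m + 1 + 1)).succAbove j)) (t - d 0 * y ^ 2) =
        q ^ (2 * m) + quadraticChar F ((-1) ^ m * ∏ j, d ((0 : Fin (2 * m + 1 + 1)).succAbove j)) *
          q ^ m * quadraticChar F (t - d 0 * y ^ 2) := by
      intro y
      rw [hm _ (fun j => hd _)]
      have e : (-1 : F) ^ m * ((t - d 0 * y ^ 2) * ∏ j, d ((0 : Fin (2 * m + 1 + 1)).succAbove j)) =
        ((-1) ^ m * ∏ j, d ((0 : Fin (2 * m + 1 + 1)).succAbove j)) * (t - d 0 * y ^ 2) := by ring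
      rw [e, map_mul]
      ring
    simp_rw [h3] at h1
    rw [Finset.sum_add_distrib, Finset.sum_const, ← Finset.mul_sum, sum_sub_sq hF (hd 0),
      Finset.card_univ, nsmul_eq_mul] at h1
    rw [h1, Fin.prod_univ_succAbove d 0]
    have h4 : quadraticChar F ((-1) ^ (m + 1) * (d 0 * ∏ j, d ((0 : Fin (2 * m + 1 + 1)).succAbove j))) =
        quadraticChar F ((-1) ^ m * ∏ j, d ((0 : Fin (2 * m + 1 + 1)).succAbove j)) *
          quadraticChar F (-d 0) := by
      rw [← map_mul]; congr 1; ring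
    rw [h4, ← hqd]
    ring
  have even : ∀ m : ℕ, (∀ d : Fin (2 * m) → F, (∀ i, d i ≠ 0) → ∀ t : F, q * M d t =
      q ^ (2 * m) + quadraticChar F ((-1) ^ m * ∏ i, d i) * q ^ m *
        ((if t = 0 then q else 0) - 1)) := by
    intro m
    induction m with
    | zero =>
      intro d _ t
      have h0 : M d t = if t = 0 then 1 else 0 := by
        unfold M
        have : Unique (Fin (2 * 0) → F) := by
          show Unique (Fin 0 → F)
          infer_instance
        rw [Fintype.sum_unique]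
        have e : ∑ i, d i * (default : Fin (2 * 0) → F) i ^ 2 = 0 := by
          apply Finset.sum_eq_zero
          intro i _
          exact absurd i.2 (by simp)
        rw [e]
        refine if_congr ⟨fun h => h.symm, fun h => h.symm⟩ rfl rfl
      have e2 : ∏ i, d i = 1 := by
        apply Finset.prod_eq_one
        intro i _
        exact absurd i.2 (by simp)
      rw [h0, e2]
      simp
    | succ m ih => exact odd_even m (even_odd m ih)
  exact ⟨even m, even_odd m (even m)⟩

/-- the number of zeros, at most one coefficient is zero -/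
theorem M_zero (hF : ringChar F ≠ 2) (k : ℕ) (d : Fin (2 * k + 2) → F)
    (hd : ∀ i j, d i = 0 → d j = 0 → i = j) :
    M d 0 = (Fintype.card F : ℤ) ^ (2 * k + 1) + quadraticChar F ((-1) ^ (k + 1) * ∏ i, d i) *
      ((Fintype.card F : ℤ) ^ (k + 1) - (Fintype.card F : ℤ) ^ k) := by
  have hq : (Fintype.card F : ℤ) ≠ 0 := by exact_mod_cast Fintype.card_ne_zero
  by_cases h : ∃ i, d i = 0
  · obtain ⟨i, hi⟩ := h
    have h1 := M_rec d i 0
    have h2 : ∀ y : F, M (fun j => d (i.succAbove j)) (0 - d i * y ^ 2) =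
        (Fintype.card F : ℤ) ^ (2 * k) := by
      intro y
      rw [hi, zero_mul, sub_zero]
      have h3 := (M_formula hF k).2 (fun j => d (i.succAbove j)) (fun j hj => by
        exact Fin.succAbove_ne i j (hd _ _ hj hi)) 0
      rw [h3]
      simp
    simp_rw [h2] at h1
    rw [Finset.sum_const, Finset.card_univ, nsmul_eq_mul] at h1
    rw [h1, Finset.prod_eq_zero (Finset.mem_univ i) hi]
    simp
    ring
  · push Not at h
    have h1 := (M_formula hF (k + 1)).1 d h 0
    rw [if_pos rfl] at h1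
    apply mul_left_cancel₀ hq
    have h2 : (Fintype.card F : ℤ) * M d 0 = (Fintype.card F : ℤ) ^ (2 * (k + 1)) +
        quadraticChar F ((-1) ^ (k + 1) * ∏ i : Fin (2 * k + 2), d i) *
          (Fintype.card F : ℤ) ^ (k + 1) * ((Fintype.card F : ℤ) - 1) := h1
    rw [h2]
    generalize quadraticChar F ((-1) ^ (k + 1) * ∏ i : Fin (2 * k + 2), d i) = e
    ring

end

end Pool.Agent.U41.QB
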