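import Pool.Agent.H82R3.EK.FF
import Pool.Agent.U41.QB.Quad

/-!
# The number of points of `y² = x (x² + u x + v)` over the extensions of a finite field
-/

set_option autoImplicit false

namespace Pool.Agent.U41.QB

open Polynomial Finset
open Pool.Agent.H341R2.Sharp
open Pool.Agent.H82R3.EK (luc luc_eq sum_Mon_two)

theorem res22 {F : Type*} [Field F] (A B b c : F) :
    resultant (X ^ 2 + C b * X + C c : F[X]) (X ^ 2 + C A * X + C B) 2 2 =
      (c - B) ^ 2 + (A - b) * (A * c - b * B) := by
  have h0 : (X ^ 2 + C b * X + C c : F[X]).coeff 0 = c := by simp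
  have h1 : (X ^ 2 + C b * X + C c : F[X]).coeff 1 = b := by simp [coeff_C]
  have h2 : (X ^ 2 + C b * X + C c : F[X]).coeff 2 = 1 := by simp [coeff_X, coeff_C]
  have g0 : (X ^ 2 + C A * X + C B : F[X]).coeff 0 = B := by simp
  have g1 : (X ^ 2 + C A * X + C B : F[X]).coeff 1 = A := by simp [coeff_C]
  have g2 : (X ^ 2 + C A * X + C B : F[X]).coeff 2 = 1 := by simp [coeff_X, coeff_C]
  generalize (X ^ 2 + C b * X + C c : F[X]) = f at *
  generalize (X ^ 2 + C A * X + C B : F[X]) = g at *
  have e : resultant f g 2 2 = Matrix.det !![B, 0, c, 0; A, B, b, c; 1, A, 1, b; 0, 1, 0, 1] := by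
    unfold resultant
    congr 1
    ext i j
    fin_cases i <;> fin_cases j <;> simp [sylvester, Fin.addCases, h0, h1, h2, g0, g1, g2]
  rw [e]
  simp [Matrix.det_succ_row_zero, Fin.sum_univ_succ, Fin.succAbove]
  ring

section
variable {F : Type*} [Field F] [Fintype F] [DecidableEq F]

/-- the cubic `X (X² + u X + v)` -/
noncomputable def cb (u v : F) : F[X] := X * (X ^ 2 + C u * X + C v)

lemma quad_natDegree (u v : F) : (X ^ 2 + C u * X + C v : F[X]).natDegree = 2 := by
  have := natDegree_quadratic (R := F) (a := 1) (b := u) (c := v) one_ne_zero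
  rwa [C_1, one_mul] at this

lemma quad_monic (u v : F) : (X ^ 2 + C u * X + C v : F[X]).Monic := by
  have hd : (C u * X + C v : F[X]).degree < 2 := by
    refine lt_of_le_of_lt degree_linear_le ?_
    norm_num
  rw [add_assoc]
  exact monic_X_pow_add (n := 2) (by exact_mod_cast hd)

lemma cb_natDegree (u v : F) : (cb u v).natDegree = 3 := by
  unfold cb
  rw [natDegree_X_mul (quad_monic u v).ne_zero, quad_natDegree]

lemma cb_monic (u v : F) : (cb u v).Monic := monic_X.mul (quad_monic u v)

lemma lam_cb (u v b c : F) : lam (cb u v) (X ^ 2 + C b * X + C c) =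
    quadraticChar F (c * ((c - v) ^ 2 + (u - b) * (u * c - b * v))) := by
  unfold lam
  rw [quad_natDegree, show (cb u v).natDegree = (X : F[X]).natDegree + (X ^ 2 + C u * X + C v : F[X]).natDegree by
    rw [cb_natDegree, natDegree_X, quad_natDegree]]
  unfold cb
  rw [resultant_mul_right _ _ _ _ (quad_natDegree b c).le, quad_natDegree, res22]
  have e3 : resultant (X ^ 2 + C b * X + C c : F[X]) (X : F[X]) 2 (X : F[X]).natDegree = c := by
    have := resultant_X_sub_C_right (X ^ 2 + C b * X + C c : F[X]) 2 (0 : F) (quad_natDegree b c).le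
    rw [map_zero, sub_zero] at this
    rw [natDegree_X, this]
    simp
  rw [e3]

lemma A_two' (hF : ringChar F ≠ 2) (u v : F) (hv : v ≠ 0) (hD : u ^ 2 - 4 * v ≠ 0) :
    A (cb u v) 2 = Fintype.card F := by
  have h2 : (2 : F) ≠ 0 := Ring.two_ne_zero hF
  unfold A
  rw [sum_Mon_two]
  simp_rw [lam_cb]
  have h4 : ∀ c : F, ∑ b : F, quadraticChar F (c * ((c - v) ^ 2 + (u - b) * (u * c - b * v))) =
      quadraticChar F (c * v) * ((if c = v then (Fintype.card F : ℤ) else 0) - 1) := by
    intro c
    have h5 := sum_sub_sq hF (d := (-1 : F)) (by simp) (-((u ^ 2 - 4 * v) * (c - v) ^ 2))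
    rw [neg_neg, map_one, one_mul] at h5
    have h6 : (if c = v then (Fintype.card F : ℤ) else 0) =
        if -((u ^ 2 - 4 * v) * (c - v) ^ 2) = 0 then (Fintype.card F : ℤ) else 0 := by
      refine if_congr ?_ rfl rfl
      constructor
      · intro h; rw [h]; ring
      · intro h
        have h7 : (c - v) ^ 2 = 0 := by
          have := neg_eq_zero.1 h
          exact (mul_eq_zero.1 this).resolve_left hD
        exact sub_eq_zero.1 (pow_eq_zero_iff (by norm_num) |>.1 h7)
    rw [h6, ← h5, Finset.mul_sum]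
    have h2v : 2 * v ≠ 0 := mul_ne_zero h2 hv
    refine Fintype.sum_equiv ((Equiv.mulLeft₀ (2 * v) h2v).trans (Equiv.subRight (u * (v + c)))) _ _
      fun b => ?_
    show _ = quadraticChar F (c * v) * quadraticChar F (-((u ^ 2 - 4 * v) * (c - v) ^ 2) - -1 *
      (2 * v * b - u * (v + c)) ^ 2)
    have e1 : -((u ^ 2 - 4 * v) * (c - v) ^ 2) - -1 * (2 * v * b - u * (v + c)) ^ 2 =
        v * ((c - v) ^ 2 + (u - b) * (u * c - b * v)) * 2 ^ 2 := by ring
    rw [e1, qc_mul_sq h2, ← map_mul]
    have e2 : c * v * (v * ((c - v) ^ 2 + (u - b) * (u * c - b * v))) =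
        c * ((c - v) ^ 2 + (u - b) * (u * c - b * v)) * v ^ 2 := by ring
    rw [e2, qc_mul_sq hv]
  simp_rw [h4, mul_sub, mul_one]
  rw [Finset.sum_sub_distrib]
  have h7 : ∑ c : F, quadraticChar F (c * v) = 0 := by
    simp_rw [map_mul]
    rw [← Finset.sum_mul, quadraticChar_sum_zero hF, zero_mul]
  rw [h7, sub_zero, Finset.sum_eq_single v]
  · rw [if_pos rfl, ← sq, qc_sq hv, one_mul]
  · intro c _ hc
    rw [if_neg hc, mul_zero]
  · intro h
    exact absurd (Finset.mem_univ _) h

lemma cb_nsq (u v : F) (c : F) (h : F[X]) : cb u v ≠ C c * h ^ 2 := by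
  intro he
  have h1 := congrArg natDegree he
  rw [cb_natDegree] at h1
  have hc : c ≠ 0 := by
    rintro rfl
    rw [map_zero, zero_mul, natDegree_zero] at h1
    omega
  rw [natDegree_C_mul hc, natDegree_pow] at h1
  omega

lemma A_high' (hF : ringChar F ≠ 2) (u v : F) (n : ℕ) (hn : 3 ≤ n) : A (cb u v) n = 0 := by
  obtain ⟨r, hr, hl⟩ := exists_r hF (cb_monic u v) (by rw [cb_natDegree]; norm_num) (cb_nsq u v)
  exact A_eq_zero (cb u v) r (cb_monic u v) hr hl n (by rw [cb_natDegree]; exact hn)

lemma T_luc' (hF : ringChar F ≠ 2) (u v : F) (hv : v ≠ 0) (hD : u ^ 2 - 4 * v ≠ 0) : ∀ n : ℕ,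
    T (cb u v) (n + 1) = - luc (- T (cb u v) 1) (Fintype.card F) (n + 1)
  | 0 => by simp [luc]
  | 1 => by
    have h1 := n_mul_A (cb u v) 1
    have h2 := n_mul_A (cb u v) 2
    rw [Finset.sum_Icc_succ_top (by norm_num), Finset.Icc_self, Finset.sum_singleton,
      A_two' hF u v hv hD] at h2
    rw [Finset.Icc_self, Finset.sum_singleton] at h1
    norm_num [A_zero] at h1 h2
    rw [h1] at h2
    simp only [luc]
    linear_combination -h2
  | n + 2 => by
    have h1 := n_mul_A (cb u v) 1
    rw [Finset.Icc_self, Finset.sum_singleton] at h1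
    norm_num [A_zero] at h1
    have h2 := n_mul_A (cb u v) (n + 3)
    rw [A_high' hF u v _ (by omega), mul_zero] at h2
    have h3 : ∑ m ∈ Icc 1 (n + 3), A (cb u v) (n + 3 - m) * T (cb u v) m =
        A (cb u v) 0 * T (cb u v) (n + 3) + A (cb u v) 1 * T (cb u v) (n + 2) +
          A (cb u v) 2 * T (cb u v) (n + 1) := by
      rw [Finset.sum_Icc_succ_top (by omega), Finset.sum_Icc_succ_top (by omega),
        Finset.sum_Icc_succ_top (by omega)]
      have h4 : ∑ m ∈ Icc 1 n, A (cb u v) (n + 3 - m) * T (cb u v) m = 0 := by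
        apply Finset.sum_eq_zero
        intro m hm
        rw [mem_Icc] at hm
        rw [A_high' hF u v _ (by omega), zero_mul]
      rw [h4]
      have e1 : n + 3 - (n + 1) = 2 := by omega
      have e2 : n + 3 - (n + 1 + 1) = 1 := by omega
      have e3 : n + 3 - (n + 2 + 1) = 0 := by omega
      rw [e1, e2, e3]
      ring
    rw [h3, A_zero, h1, A_two' hF u v hv hD, T_luc' hF u v hv hD n, T_luc' hF u v hv hD (n + 1)] at h2
    have e : luc (- T (cb u v) 1) (Fintype.card F) (n + 3) =
      (- T (cb u v) 1) * luc (- T (cb u v) 1) (Fintype.card F) (n + 2) -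
      (Fintype.card F) * luc (- T (cb u v) 1) (Fintype.card F) (n + 1) := rfl
    show T (cb u v) (n + 3) = - luc (- T (cb u v) 1) (Fintype.card F) (n + 3)
    rw [e]
    linear_combination -h2

/-- the sum over a field extension -/
theorem ext_sum (hF : ringChar F ≠ 2) (u v : F) (hv : v ≠ 0) (hD : u ^ 2 - 4 * v ≠ 0)
    {E : Type*} [Field E] [Fintype E] [DecidableEq E] [Algebra F E] :
    ∑ x : E, quadraticChar E (x * (x ^ 2 + algebraMap F E u * x + algebraMap F E v)) =
      - luc (- ∑ x : F, quadraticChar F (x * (x ^ 2 + u * x + v))) (Fintype.card F)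
        (Module.finrank F E) := by
  have h1 : ∑ x : E, quadraticChar E (x * (x ^ 2 + algebraMap F E u * x + algebraMap F E v)) =
      T (cb u v) (Module.finrank F E) := by
    rw [T_eq_sum (E := E) hF]
    refine Finset.sum_congr rfl fun x _ => ?_
    congr 1
    unfold cb
    simp
  have h2 : ∑ x : F, quadraticChar F (x * (x ^ 2 + u * x + v)) = T (cb u v) 1 := by
    have := T_eq_sum (E := F) hF (cb u v)
    rw [Module.finrank_self] at this
    rw [this]
    refine Finset.sum_congr rfl fun x _ => ?_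
    congr 1
    unfold cb
    simp
  rw [h1, h2]
  obtain ⟨n, hn⟩ := Nat.exists_eq_succ_of_ne_zero (Module.finrank_pos (R := F) (M := E)).ne'
  rw [hn]
  exact T_luc' hF u v hv hD n

end

end Pool.Agent.U41.QB
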