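import Pool.Agent.U41.QB.Ell
import Pool.Agent.U41.QB.Cnt

/-!
# The Frobenius eigenvalues at a good prime
-/

set_option autoImplicit false

namespace Pool.Agent.U41.QB

open Finset Matrix MvPolynomial
open Pool.Agent.H82R3.EK (luc luc_eq)

/-- the root `(t + i √(4 p - t²)) / 2` of `X² - t X + p` -/
noncomputable def al (t : ℤ) (p : ℕ) : ℂ :=
  ((t : ℂ) + Complex.I * ((Real.sqrt (4 * p - (t : ℝ) ^ 2) : ℝ) : ℂ)) / 2

/-- the root `(t - i √(4 p - t²)) / 2` of `X² - t X + p` -/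
noncomputable def be (t : ℤ) (p : ℕ) : ℂ :=
  ((t : ℂ) - Complex.I * ((Real.sqrt (4 * p - (t : ℝ) ^ 2) : ℝ) : ℂ)) / 2

theorem al_add_be (t : ℤ) (p : ℕ) : al t p + be t p = t := by
  unfold al be; ring

theorem al_mul_be {t : ℤ} {p : ℕ} (h : (t : ℝ) ^ 2 ≤ 4 * p) : al t p * be t p = (p : ℤ) := by
  unfold al be
  have h1 : (((Real.sqrt (4 * p - (t : ℝ) ^ 2) : ℝ) : ℂ)) ^ 2 = 4 * p - (t : ℂ) ^ 2 := by
    rw [← Complex.ofReal_pow, Real.sq_sqrt (by linarith)]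
    push_cast; ring
  have h2 : Complex.I ^ 2 = -1 := Complex.I_sq
  push_cast
  linear_combination (-(1 : ℂ) / 4 * (((Real.sqrt (4 * p - (t : ℝ) ^ 2) : ℝ) : ℂ)) ^ 2) * h2 +
    (1 / 4 : ℂ) * h1

theorem be_eq (t : ℤ) (p : ℕ) : be t p = (starRingEnd ℂ) (al t p) := by
  unfold al be
  have h2 : (starRingEnd ℂ) 2 = 2 := Complex.conj_ofNat 2
  simp only [map_div₀, map_add, map_mul, Complex.conj_I, Complex.conj_ofReal, map_intCast, h2]
  ring

theorem norm_al {t : ℤ} {p : ℕ} (h : (t : ℝ) ^ 2 ≤ 4 * p) : ‖al t p‖ ^ 2 = p := by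
  have h1 := al_mul_be h
  rw [be_eq, Complex.mul_conj, Complex.normSq_eq_norm_sq] at h1
  exact_mod_cast h1

theorem norm_be {t : ℤ} {p : ℕ} (h : (t : ℝ) ^ 2 ≤ 4 * p) : ‖be t p‖ ^ 2 = p := by
  rw [be_eq, Complex.norm_conj, norm_al h]

section
variable {F : Type*} [Field F] [Fintype F] [DecidableEq F]

theorem TT_bound (hF : ringChar F ≠ 2) (a : F) :
    ((TT a : ℤ) : ℝ) ^ 2 ≤ 4 * Fintype.card F := by
  have h1 := Pool.Agent.H341R2.Sharp.weil_sharp_monic hF (cb_monic (21 * a) (112 * a ^ 2))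
    (by rw [cb_natDegree]; norm_num) (cb_nsq _ _)
  rw [cb_natDegree] at h1
  have h2 : ∑ x : F, (quadraticChar F ((cb (21 * a) (112 * a ^ 2)).eval x) : ℝ) = ((TT a : ℤ) : ℝ) := by
    unfold TT cb
    push_cast
    refine Finset.sum_congr rfl fun x _ => ?_
    simp
  rw [h2] at h1
  have h3 : |((TT a : ℤ) : ℝ)| ^ 2 ≤ (((3 : ℕ) - 1 : ℝ) * Real.sqrt (Fintype.card F)) ^ 2 := by
    gcongr
  rw [sq_abs, mul_pow, Real.sq_sqrt (by positivity)] at h3
  norm_num at h3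
  linarith

/-- the twist by a square -/
theorem TT_sq (a : F) {t : F} (ht : t ≠ 0) : TT (a * t ^ 2) = TT a := by
  unfold TT
  symm
  refine Fintype.sum_equiv (Equiv.mulLeft₀ (t ^ 2) (pow_ne_zero 2 ht)) _ _ fun z => ?_
  show _ = quadraticChar F (t ^ 2 * z * ((t ^ 2 * z) ^ 2 + 21 * (a * t ^ 2) * (t ^ 2 * z) +
    112 * (a * t ^ 2) ^ 2))
  have : t ^ 2 * z * ((t ^ 2 * z) ^ 2 + 21 * (a * t ^ 2) * (t ^ 2 * z) + 112 * (a * t ^ 2) ^ 2) =
    z * (z ^ 2 + 21 * a * z + 112 * a ^ 2) * (t ^ 3) ^ 2 := by ring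
  rw [this, qc_mul_sq (pow_ne_zero 3 ht)]

end

/-- the sum over an extension of the prime field -/
theorem TT_ext {p : ℕ} [Fact p.Prime] (hp2 : p ≠ 2) (hp7 : p ≠ 7) {a : ℤ}
    (ha : ¬ (p : ℤ) ∣ a) {F : Type*} [Field F] [Fintype F] [DecidableEq F] {r : ℕ}
    (hr : Fintype.card F = p ^ r) :
    ((TT (a : F) : ℤ) : ℂ) = -((al (-TT (a : ZMod p)) p) ^ r + (be (-TT (a : ZMod p)) p) ^ r) := by
  have hpp : p.Prime := Fact.out
  have hr0 : r ≠ 0 := by
    rintro rfl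
    have := Fintype.one_lt_card (α := F)
    rw [hr, pow_zero] at this
    exact lt_irrefl _ this
  haveI hch : CharP F p := by
    have h1 : CharP F (ringChar F) := ringChar.charP F
    have h2 : (ringChar F).Prime := CharP.char_is_prime F _
    obtain ⟨n, hn, h3⟩ := FiniteField.card F (ringChar F)
    rw [hr] at h3
    have h4 : p = ringChar F := by
      have h5 : p ∣ ringChar F ^ (n : ℕ) := by
        rw [← h3]; exact dvd_pow_self p hr0
      exact (Nat.prime_dvd_prime_iff_eq hpp h2).1 (hpp.dvd_of_dvd_pow h5)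
    rw [h4]; exact h1
  letI : Algebra (ZMod p) F := ZMod.algebra F p
  have hfr : Module.finrank (ZMod p) F = r := by
    have h1 := Module.card_eq_pow_finrank (K := ZMod p) (V := F)
    rw [hr, ZMod.card] at h1
    exact (Nat.pow_right_injective hpp.two_le h1).symm
  have hF : ringChar (ZMod p) ≠ 2 := by
    rw [ZMod.ringChar_zmod_n]; exact hp2
  have haz : (a : ZMod p) ≠ 0 := by
    rw [Ne, ZMod.intCast_zmod_eq_zero_iff_dvd]; exact ha
  have h2 : (2 : ZMod p) ≠ 0 := two_ne hF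
  have h7 : (7 : ZMod p) ≠ 0 := by
    have : ((7 : ℕ) : ZMod p) ≠ 0 := by
      rw [Ne, ZMod.natCast_eq_zero_iff]
      intro h
      exact hp7 ((Nat.prime_dvd_prime_iff_eq hpp (by norm_num)).1 h)
    exact_mod_cast this
  have hv : (112 * (a : ZMod p) ^ 2) ≠ 0 := by
    have : (112 : ZMod p) = 2 ^ 4 * 7 := by norm_num
    rw [this]
    exact mul_ne_zero (mul_ne_zero (pow_ne_zero 4 h2) h7) (pow_ne_zero 2 haz)
  have hD : (21 * (a : ZMod p)) ^ 2 - 4 * (112 * (a : ZMod p) ^ 2) ≠ 0 := by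
    have : (21 * (a : ZMod p)) ^ 2 - 4 * (112 * (a : ZMod p) ^ 2) = -(7 * (a : ZMod p) ^ 2) := by ring
    rw [this]
    exact neg_ne_zero.2 (mul_ne_zero h7 (pow_ne_zero 2 haz))
  have key := ext_sum hF (21 * (a : ZMod p)) (112 * (a : ZMod p) ^ 2) hv hD (E := F)
  have e1 : ∑ x : F, quadraticChar F (x * (x ^ 2 + algebraMap (ZMod p) F (21 * (a : ZMod p)) * x +
      algebraMap (ZMod p) F (112 * (a : ZMod p) ^ 2))) = TT (a : F) := by
    unfold TT
    refine Finset.sum_congr rfl fun x _ => ?_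
    simp only [map_mul, map_pow, map_ofNat, map_intCast]
  have e2 : ∑ x : ZMod p, quadraticChar (ZMod p) (x * (x ^ 2 + 21 * (a : ZMod p) * x +
      112 * (a : ZMod p) ^ 2)) = TT (a : ZMod p) := rfl
  rw [e1, e2, hfr, ZMod.card] at key
  have hb := TT_bound hF (a : ZMod p)
  rw [ZMod.card] at hb
  have hb' : (((-TT (a : ZMod p) : ℤ)) : ℝ) ^ 2 ≤ 4 * (p : ℝ) := by
    push_cast
    rw [neg_sq]
    exact hb
  rw [key]
  push_cast
  rw [luc_eq (al_add_be _ _) (al_mul_be hb') r]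

/-- the eigenvalues on `H^{2k+1}` of the quadric bundle -/
noncomputable def eig (k : ℕ) (t t' : ℤ) (p : ℕ) : Multiset ℂ :=
  {(p : ℂ) ^ k * al t p, (p : ℂ) ^ k * be t p, (p : ℂ) ^ k * al t' p, (p : ℂ) ^ k * be t' p}

/-- **the point counts over all extensions** -/
theorem frob {p : ℕ} [Fact p.Prime] (hp2 : p ≠ 2) (hp3 : p ≠ 3) (hp7 : p ≠ 7) (k : ℕ)
    {S : Matrix (Fin (2 * k + 2)) (Fin (2 * k + 2)) (MvPolynomial (Fin 2) ℤ)} (hS : S.IsSymm)
    {a b c : ℤ} (hdet : S.det = (-1) ^ (k + 1) * C (c ^ 2) * FF (C a) (C b) (X 0) (X 1))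
    (ha : ¬ (p : ℤ) ∣ a) (hb : ¬ (p : ℤ) ∣ b) (hc : ¬ (p : ℤ) ∣ c)
    {F : Type*} [Field F] [Finite F] {r : ℕ} (hr : Nat.card F = p ^ r) :
    (({w : (Fin 2 → F) × (Fin (2 * k + 2) → F) | w.1 ≠ 0 ∧ w.2 ≠ 0 ∧
      ∑ i, ∑ j, aeval w.1 (S i j) * w.2 i * w.2 j = 0}.ncard : ℕ) : ℂ) =
      ((Nat.card F : ℂ) - 1) ^ 2 * (((Nat.card F : ℂ) + 1) *
        ∑ j ∈ range (2 * k + 1), (Nat.card F : ℂ) ^ j -
        ((eig k (-TT (a : ZMod p)) (-TT (b : ZMod p)) p).map (fun x => x ^ r)).sum) := by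
  classical
  have hpp : p.Prime := Fact.out
  letI : Fintype F := Fintype.ofFinite F
  rw [Nat.card_eq_fintype_card] at hr ⊢
  have hr0 : r ≠ 0 := by
    rintro rfl
    have := Fintype.one_lt_card (α := F)
    rw [hr, pow_zero] at this
    exact lt_irrefl _ this
  haveI hch : CharP F p := by
    have h1 : CharP F (ringChar F) := ringChar.charP F
    have h2 : (ringChar F).Prime := CharP.char_is_prime F _
    obtain ⟨n, hn, h3⟩ := FiniteField.card F (ringChar F)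
    rw [hr] at h3
    have h4 : p = ringChar F := by
      have h5 : p ∣ ringChar F ^ (n : ℕ) := by
        rw [← h3]; exact dvd_pow_self p hr0
      exact (Nat.prime_dvd_prime_iff_eq hpp h2).1 (hpp.dvd_of_dvd_pow h5)
    rw [h4]; exact h1
  have hF : ringChar F ≠ 2 := by
    rw [ringChar.eq F p]; exact hp2
  have hint : ∀ z : ℤ, ¬ (p : ℤ) ∣ z → (z : F) ≠ 0 := by
    intro z hz h
    exact hz ((CharP.intCast_eq_zero_iff F p z).1 h)
  have hnum : ∀ l : ℕ, l.Prime → p ≠ l → (l : F) ≠ 0 := by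
    intro l hl hpl h
    exact hpl ((Nat.prime_dvd_prime_iff_eq hpp hl).1 ((CharP.cast_eq_zero_iff F p l).1 h))
  have h3 : (3 : F) ≠ 0 := by exact_mod_cast hnum 3 (by norm_num) hp3
  have h7 : (7 : F) ≠ 0 := by exact_mod_cast hnum 7 (by norm_num) hp7
  have key := count hF h3 h7 k hS hdet (hint a ha) (hint b hb) (hint c hc)
  have e1 : {w : (Fin 2 → F) × (Fin (2 * k + 2) → F) | w.1 ≠ 0 ∧ w.2 ≠ 0 ∧
      ∑ i, ∑ j, aeval w.1 (S i j) * w.2 i * w.2 j = 0}.ncard =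
      (univ.filter fun w : (Fin 2 → F) × (Fin (2 * k + 2) → F) =>
      w.1 ≠ 0 ∧ w.2 ≠ 0 ∧ qf (ev S w.1) w.2 = 0).card := by
    rw [Set.ncard_eq_toFinset_card']
    congr 1
    ext w
    simp only [Set.mem_toFinset, Set.mem_ofPred_eq, Finset.mem_filter, Finset.mem_univ, true_and]
    rfl
  rw [e1]
  have key' := congrArg (fun z : ℤ => (z : ℂ)) key
  push_cast at key'
  rw [key', TT_ext hp2 hp7 ha hr, TT_ext hp2 hp7 hb hr]
  have e2 : ((eig k (-TT (a : ZMod p)) (-TT (b : ZMod p)) p).map (fun x => x ^ r)).sum =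
      (Fintype.card F : ℂ) ^ k * ((al (-TT (a : ZMod p)) p) ^ r + (be (-TT (a : ZMod p)) p) ^ r +
        ((al (-TT (b : ZMod p)) p) ^ r + (be (-TT (b : ZMod p)) p) ^ r)) := by
    unfold eig
    simp only [Multiset.insert_eq_cons, Multiset.map_cons, Multiset.map_singleton,
      Multiset.sum_cons, Multiset.sum_singleton, mul_pow]
    have e3 : ((p : ℂ) ^ k) ^ r = (Fintype.card F : ℂ) ^ k := by
      rw [hr]; push_cast; ring
    rw [e3]
    ring
  rw [e2]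
  ring

end Pool.Agent.U41.QB
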