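import Pool.Agent.U41.QB.Frob
import Pool.Agent.Y687.Lfin

/-!
# The L-function of the quadric bundle
-/

set_option autoImplicit false

namespace Pool.Agent.U41.QB

open Finset Matrix MvPolynomial
open Pool.Agent.Y687 (fac)

/-- the coefficients of `y² = x³ - 35 a² x - 98 a³` -/
def cA (a : ℤ) : ℤ := -35 * a ^ 2

/-- the coefficients of `y² = x³ - 35 a² x - 98 a³` -/
def cB (a : ℤ) : ℤ := -98 * a ^ 3

/-- the trace of Frobenius -/
noncomputable def tr (a : ℤ) (p : ℕ) : ℤ := (p : ℤ) - (Nat.card {q : ZMod p × ZMod p //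
  q.2 ^ 2 = q.1 ^ 3 + (cA a : ZMod p) * q.1 + (cB a : ZMod p)} : ℤ)

theorem tr_eq {p : ℕ} [Fact p.Prime] (hp2 : p ≠ 2) (a : ℤ) : tr a p = -TT (a : ZMod p) := by
  have hF : ringChar (ZMod p) ≠ 2 := by
    rw [ZMod.ringChar_zmod_n]; exact hp2
  have h1 := Pool.Agent.H82R3.EK.card_points (k := ZMod p) hF
    (fun x => x ^ 3 + (cA a : ZMod p) * x + (cB a : ZMod p))
  unfold tr
  rw [h1, ZMod.card]
  have h2 : ∑ x : ZMod p, quadraticChar (ZMod p) (x ^ 3 + (cA a : ZMod p) * x + (cB a : ZMod p)) =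
      TT (a : ZMod p) := by
    unfold TT
    symm
    refine Fintype.sum_equiv (Equiv.addRight (7 * (a : ZMod p))) _ _ fun z => ?_
    show _ = quadraticChar (ZMod p) ((z + 7 * a) ^ 3 + (cA a : ZMod p) * (z + 7 * a) + (cB a : ZMod p))
    congr 1
    unfold cA cB
    push_cast
    ring
  rw [h2]
  ring

/-- the inverse Euler factor -/
noncomputable def gl (t : ℤ) (s : ℂ) (p : ℕ) : ℂ := 1 - (t : ℂ) * (p : ℂ) ^ (-s) + (p : ℂ) ^ (1 - 2 * s)

theorem fac_eq (a : ℤ) (s : ℂ) (p : ℕ) : fac (cA a) (cB a) s p = (gl (tr a p) s p)⁻¹ := rfl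

theorem gl_eq {t : ℤ} {p : ℕ} (hp : p ≠ 0) (h : (t : ℝ) ^ 2 ≤ 4 * p) (s : ℂ) :
    gl t s p = (1 - al t p * (p : ℂ) ^ (-s)) * (1 - be t p * (p : ℂ) ^ (-s)) := by
  have hp' : (p : ℂ) ≠ 0 := by exact_mod_cast hp
  unfold gl
  have h1 : (p : ℂ) ^ (1 - 2 * s) = p * ((p : ℂ) ^ (-s)) ^ 2 := by
    rw [show (1 - 2 * s : ℂ) = 1 + ((-s) + (-s)) by ring, Complex.cpow_add _ _ hp',
      Complex.cpow_add _ _ hp', Complex.cpow_one]
    ring
  have h2 := al_add_be t p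
  have h3 := al_mul_be h
  push_cast at h3
  rw [h1]
  linear_combination ((p : ℂ) ^ (-s)) * h2 - ((p : ℂ) ^ (-s)) ^ 2 * h3

theorem gl_ne {t : ℤ} {p : ℕ} (hp : p.Prime) (h : (t : ℝ) ^ 2 ≤ 4 * p) {s : ℂ}
    (hs : (1 : ℝ) / 2 < s.re) : gl t s p ≠ 0 := by
  have hp0 : 0 < (p : ℝ) := by exact_mod_cast hp.pos
  have hp1 : 1 < (p : ℝ) := by exact_mod_cast hp.one_lt
  have key : ∀ z : ℂ, ‖z‖ ^ 2 = p → 1 - z * (p : ℂ) ^ (-s) ≠ 0 := by
    intro z hz h0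
    have h1 : z * (p : ℂ) ^ (-s) = 1 := (sub_eq_zero.1 h0).symm
    have h2 : ‖z * (p : ℂ) ^ (-s)‖ ^ 2 = 1 := by rw [h1]; simp
    have h3 : ‖(p : ℂ) ^ (-s)‖ = (p : ℝ) ^ (-s.re) := by
      have := Complex.norm_cpow_eq_rpow_re_of_pos hp0 (-s)
      simpa using this
    rw [norm_mul, mul_pow, hz, h3, ← Real.rpow_natCast, ← Real.rpow_mul hp0.le,
      ← Real.rpow_one_add' hp0.le (by push_cast; linarith)] at h2
    have h4 : (p : ℝ) ^ (1 + -s.re * ((2 : ℕ) : ℝ)) < 1 :=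
      Real.rpow_lt_one_of_one_lt_of_neg hp1 (by push_cast; linarith)
    linarith
  rw [gl_eq hp.ne_zero h]
  exact mul_ne_zero (key _ (norm_al h)) (key _ (norm_be h))

theorem gl_diff (t : ℤ) {p : ℕ} (hp : p ≠ 0) : Differentiable ℂ (fun s => gl t s p) := by
  have hp' : (p : ℂ) ≠ 0 := by exact_mod_cast hp
  have h1 : Differentiable ℂ (fun s : ℂ => (p : ℂ) ^ (-s)) := by
    have h2 : (fun s : ℂ => (p : ℂ) ^ (-s)) = fun s : ℂ => Complex.exp (Complex.log p * (-s)) := by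
      funext s
      rw [Complex.cpow_def_of_ne_zero hp']
    rw [h2]
    fun_prop
  have h3 : Differentiable ℂ (fun s : ℂ => (p : ℂ) ^ (1 - 2 * s)) := by
    have h2 : (fun s : ℂ => (p : ℂ) ^ (1 - 2 * s)) =
        fun s : ℂ => Complex.exp (Complex.log p * (1 - 2 * s)) := by
      funext s
      rw [Complex.cpow_def_of_ne_zero hp']
    rw [h2]
    fun_prop
  unfold gl
  exact ((differentiable_const _).sub ((differentiable_const _).mul h1)).add h3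

/-- removing finitely many factors -/
theorem remove {P Q : ℕ → Prop} (hQP : ∀ l, Q l → P l) (T : Finset ℕ)
    (hT : ∀ l, l ∈ T ↔ P l ∧ ¬ Q l) (G g : ℕ → ℂ) (hg : ∀ l ∈ T, G l * g l = 1) {v : ℂ}
    (h : HasProd (fun l : {l : ℕ // P l} => G l) v) :
    HasProd (fun l : {l : ℕ // Q l} => G l) (v * ∏ l ∈ T, g l) := by
  classical
  have h1 : HasProd ({l : ℕ | P l}.mulIndicator G) v :=
    (hasProd_subtype_iff_mulIndicator (f := G) (s := {l : ℕ | P l})).1 h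
  have h2 : HasProd (fun l => if l ∈ T then g l else 1) (∏ l ∈ T, g l) := by
    have h3 : ∏ l ∈ T, g l = ∏ l ∈ T, if l ∈ T then g l else 1 :=
      Finset.prod_congr rfl fun l hl => by rw [if_pos hl]
    rw [h3]
    exact hasProd_prod_of_ne_finset_one fun l hl => by rw [if_neg hl]
  have h4 := h1.mul h2
  refine (hasProd_subtype_iff_mulIndicator (f := G) (s := {l : ℕ | Q l})).2 ?_
  convert h4 using 1
  funext l
  by_cases hl : l ∈ T
  · have h5 := (hT l).1 hl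
    rw [if_pos hl, Set.mulIndicator_of_mem (show l ∈ {l : ℕ | P l} from h5.1), hg l hl,
      Set.mulIndicator_of_notMem (show l ∉ {l : ℕ | Q l} from h5.2)]
  · rw [if_neg hl, mul_one]
    by_cases hP : P l
    · have hQ : Q l := by
        by_contra hQ
        exact hl ((hT l).2 ⟨hP, hQ⟩)
      rw [Set.mulIndicator_of_mem (show l ∈ {l : ℕ | P l} from hP),
        Set.mulIndicator_of_mem (show l ∈ {l : ℕ | Q l} from hQ)]
    · have hQ : ¬ Q l := fun h => hP (hQP l h)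
      rw [Set.mulIndicator_of_notMem (show l ∉ {l : ℕ | P l} from hP),
        Set.mulIndicator_of_notMem (show l ∉ {l : ℕ | Q l} from hQ)]

/-- the incomplete `L`-function of `y² = x³ - 35 a² x - 98 a³` is entire and not zero at `1` -/
def NonVan (a N : ℤ) : Prop :=
  ∃ f : ℂ → ℂ, Differentiable ℂ f ∧ (∀ s : ℂ, (3 : ℝ) / 2 < s.re →
    HasProd (fun l : {l : ℕ // l.Prime ∧ ¬ ((l : ℤ) ∣ N)} => fac (cA a) (cB a) s l) (f s)) ∧ f 1 ≠ 0

theorem tr_bound {p : ℕ} (hp : p.Prime) (hp2 : p ≠ 2) (a : ℤ) : ((tr a p : ℤ) : ℝ) ^ 2 ≤ 4 * p := by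
  haveI : Fact p.Prime := ⟨hp⟩
  have hF : ringChar (ZMod p) ≠ 2 := by
    rw [ZMod.ringChar_zmod_n]; exact hp2
  have := TT_bound hF (a : ZMod p)
  rw [ZMod.card] at this
  rw [tr_eq hp2]
  push_cast
  rw [neg_sq]
  exact this

theorem tr_sq {p : ℕ} (hp : p.Prime) (hp2 : p ≠ 2) {D t : ℤ} (ht : ¬ (p : ℤ) ∣ t) :
    tr (D * t ^ 2) p = tr D p := by
  haveI : Fact p.Prime := ⟨hp⟩
  rw [tr_eq hp2, tr_eq hp2]
  push_cast
  rw [TT_sq]
  rw [Ne, ZMod.intCast_zmod_eq_zero_iff_dvd]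
  exact ht

theorem disc_eq (D : ℤ) : 2 * (4 * cA D ^ 3 + 27 * cB D ^ 2) = 2 ^ 9 * 7 ^ 3 * D ^ 6 := by
  unfold cA cB; ring

theorem dvd_disc {l : ℕ} (hl : l.Prime) (D : ℤ) :
    (l : ℤ) ∣ 2 * (4 * cA D ^ 3 + 27 * cB D ^ 2) ↔ (l : ℤ) ∣ 14 * D := by
  have hl' : Prime (l : ℤ) := Nat.prime_iff_prime_int.1 hl
  rw [disc_eq, show (14 : ℤ) * D = 2 * 7 * D by ring]
  rw [hl'.dvd_mul, hl'.dvd_mul, hl'.dvd_mul, hl'.dvd_mul, hl'.dvd_pow_iff_dvd (by norm_num),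
    hl'.dvd_pow_iff_dvd (by norm_num), hl'.dvd_pow_iff_dvd (by norm_num)]

/-- more bad primes, a twist by a square -/
theorem nonVan_of {D t N : ℤ} (hN : N ≠ 0) (h14 : 14 * (D * t ^ 2) ∣ N)
    (h : NonVan D (2 * (4 * cA D ^ 3 + 27 * cB D ^ 2))) : NonVan (D * t ^ 2) N := by
  classical
  obtain ⟨f, h1, h2, h3⟩ := h
  have hQP : ∀ l : ℕ, (l.Prime ∧ ¬ ((l : ℤ) ∣ N)) →
      (l.Prime ∧ ¬ ((l : ℤ) ∣ 2 * (4 * cA D ^ 3 + 27 * cB D ^ 2))) := by
    rintro l ⟨hl, hlN⟩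
    refine ⟨hl, fun h => hlN ?_⟩
    rw [dvd_disc hl] at h
    exact (h.trans (Dvd.intro (t ^ 2) (by ring))).trans h14
  set T : Finset ℕ := N.natAbs.primeFactors.filter fun l =>
    ¬ ((l : ℤ) ∣ 2 * (4 * cA D ^ 3 + 27 * cB D ^ 2)) with hTd
  have hT : ∀ l, l ∈ T ↔ (l.Prime ∧ ¬ ((l : ℤ) ∣ 2 * (4 * cA D ^ 3 + 27 * cB D ^ 2))) ∧
      ¬ (l.Prime ∧ ¬ ((l : ℤ) ∣ N)) := by
    intro l
    rw [hTd, Finset.mem_filter, Nat.mem_primeFactors]
    constructor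
    · rintro ⟨⟨a1, a2, a3⟩, a4⟩
      exact ⟨⟨a1, a4⟩, fun h => h.2 (Int.natCast_dvd.2 a2)⟩
    · rintro ⟨⟨a1, a2⟩, a3⟩
      have : (l : ℤ) ∣ N := by
        by_contra hc
        exact a3 ⟨a1, hc⟩
      exact ⟨⟨a1, Int.natCast_dvd.1 this, Int.natAbs_ne_zero.2 hN⟩, a2⟩
  have hbd : ∀ l ∈ T, l.Prime ∧ ((tr D l : ℤ) : ℝ) ^ 2 ≤ 4 * l := by
    intro l hl
    have h5 := ((hT l).1 hl).1
    refine ⟨h5.1, tr_bound h5.1 ?_ D⟩
    rintro rfl
    apply h5.2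
    rw [dvd_disc h5.1]
    exact ⟨7 * D, by push_cast; ring⟩
  refine ⟨fun s => f s * ∏ l ∈ T, gl (tr D l) s l, ?_, fun s hs => ?_, ?_⟩
  · refine h1.mul ?_
    have : ∀ U : Finset ℕ, (∀ l ∈ U, l ≠ 0) → Differentiable ℂ (fun s => ∏ l ∈ U, gl (tr D l) s l) := by
      intro U
      induction U using Finset.induction_on with
      | empty => intro _; simp
      | insert l U hl ih =>
        intro hU
        simp_rw [Finset.prod_insert hl]
        exact (gl_diff _ (hU l (Finset.mem_insert_self _ _))).mul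
          (ih fun m hm => hU m (Finset.mem_insert_of_mem hm))
    exact this T fun l hl => (hbd l hl).1.ne_zero
  · have h5 := remove hQP T hT (fun l => fac (cA D) (cB D) s l) (fun l => gl (tr D l) s l)
      (fun l hl => by
        rw [fac_eq]
        exact inv_mul_cancel₀ (gl_ne (hbd l hl).1 (hbd l hl).2 (by linarith))) (h2 s hs)
    convert h5 using 1
    funext l
    obtain ⟨l, hl, hlN⟩ := l
    show fac (cA (D * t ^ 2)) (cB (D * t ^ 2)) s l = fac (cA D) (cB D) s l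
    rw [fac_eq, fac_eq, tr_sq hl]
    · rintro rfl
      exact hlN (Dvd.dvd.trans (Dvd.intro (7 * (D * t ^ 2)) (by push_cast; ring)) h14)
    · intro hd
      exact hlN ((hd.trans (Dvd.intro (14 * D * t) (by ring))).trans h14)
  · show f 1 * ∏ l ∈ T, gl (tr D l) 1 l ≠ 0
    refine mul_ne_zero h3 (Finset.prod_ne_zero_iff.2 fun l hl => ?_)
    exact gl_ne (hbd l hl).1 (hbd l hl).2 (by norm_num)

theorem eig_prod (k : ℕ) {t t' : ℤ} {p : ℕ} (hp : p.Prime) (h : (t : ℝ) ^ 2 ≤ 4 * p)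
    (h' : (t' : ℝ) ^ 2 ≤ 4 * p) (s : ℂ) :
    ((eig k t t' p).map fun z => (1 - z * (p : ℂ) ^ (-s))⁻¹).prod =
      (gl t (s - k) p)⁻¹ * (gl t' (s - k) p)⁻¹ := by
  have hp' : (p : ℂ) ≠ 0 := by exact_mod_cast hp.ne_zero
  have h1 : (p : ℂ) ^ (-(s - k)) = (p : ℂ) ^ k * (p : ℂ) ^ (-s) := by
    rw [show -(s - (k : ℂ)) = (k : ℂ) + (-s) by ring, Complex.cpow_add _ _ hp', Complex.cpow_natCast]
  rw [gl_eq hp.ne_zero h, gl_eq hp.ne_zero h', h1]
  unfold eig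
  simp only [Multiset.insert_eq_cons, Multiset.map_cons, Multiset.map_singleton,
    Multiset.prod_cons, Multiset.prod_singleton]
  rw [← mul_inv, ← mul_inv, ← mul_inv, ← mul_inv]
  congr 1
  ring

theorem norm_eig (k : ℕ) {t t' : ℤ} {p : ℕ} (h : (t : ℝ) ^ 2 ≤ 4 * p)
    (h' : (t' : ℝ) ^ 2 ≤ 4 * p) : ∀ z ∈ eig k t t' p, ‖z‖ ^ 2 = (p : ℝ) ^ (2 * k + 1) := by
  intro z hz
  have key : ∀ w : ℂ, ‖w‖ ^ 2 = p → ‖(p : ℂ) ^ k * w‖ ^ 2 = (p : ℝ) ^ (2 * k + 1) := by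
    intro w hw
    rw [norm_mul, mul_pow, hw, norm_pow, Complex.norm_natCast]
    ring
  unfold eig at hz
  simp only [Multiset.insert_eq_cons, Multiset.mem_cons, Multiset.mem_singleton] at hz
  rcases hz with rfl | rfl | rfl | rfl
  · exact key _ (norm_al h)
  · exact key _ (norm_be h)
  · exact key _ (norm_al h')
  · exact key _ (norm_be h')

/-- **the `L`-function of the bundle** -/
theorem L_two (k : ℕ) {a b N : ℤ} (h2N : (2 : ℤ) ∣ N) (ha : NonVan a N) (hb : NonVan b N) :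
    ∃ L : ℂ → ℂ, Differentiable ℂ L ∧ (∀ s : ℂ, (k : ℝ) + 3 / 2 < s.re →
      HasProd (fun p : {p : ℕ // p.Prime ∧ ¬ ((p : ℤ) ∣ N)} =>
        ((eig k (tr a p) (tr b p) p).map fun z => (1 - z * ((p : ℕ) : ℂ) ^ (-s))⁻¹).prod) (L s)) ∧
      L (k + 1) ≠ 0 := by
  obtain ⟨f, f1, f2, f3⟩ := ha
  obtain ⟨g, g1, g2, g3⟩ := hb
  refine ⟨fun s => f (s - k) * g (s - k), ?_, fun s hs => ?_, ?_⟩
  · exact (f1.comp (differentiable_id.sub_const _)).mul (g1.comp (differentiable_id.sub_const _))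
  · have hs' : (3 : ℝ) / 2 < (s - k).re := by
      simp only [Complex.sub_re, Complex.natCast_re]
      linarith
    have h1 := (f2 _ hs').mul (g2 _ hs')
    convert h1 using 1
    funext p
    obtain ⟨p, hp, hpN⟩ := p
    have hp2 : p ≠ 2 := by
      rintro rfl
      exact hpN h2N
    show _ = fac (cA a) (cB a) (s - k) p * fac (cA b) (cB b) (s - k) p
    rw [fac_eq, fac_eq]
    exact eig_prod k hp (tr_bound hp hp2 a) (tr_bound hp hp2 b) s
  · show f ((k : ℂ) + 1 - k) * g ((k : ℂ) + 1 - k) ≠ 0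
    have : (k : ℂ) + 1 - k = 1 := by ring
    rw [this]
    exact mul_ne_zero f3 g3

end Pool.Agent.U41.QB
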