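import Pool.Agent.U41.QB.Quad

/-!
# The number of zeros of a quadratic form of corank at most one in an even number of variables
-/

set_option autoImplicit false

namespace Pool.Agent.U41.QB

open Finset Matrix

/-- symmetric matrices can be diagonalized -/
theorem diagonalize {F : Type*} [Field F] {n : ℕ} (h2 : (2 : F) ≠ 0) (S : Matrix (Fin n) (Fin n) F)
    (hS : S.IsSymm) :
    ∃ (P : Matrix (Fin n) (Fin n) F) (d : Fin n → F), P.det ≠ 0 ∧ Pᵀ * S * P = Matrix.diagonal d := by
  classical
  have : Invertible (2 : F) := invertibleOfNonzero h2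
  obtain ⟨B, hB⟩ : ∃ B : LinearMap.BilinForm F (Fin n → F), ∀ a b, B a b = ∑ i, ∑ j, a i * S i j * b j :=
    ⟨Matrix.toBilin' S, fun a b => Matrix.toBilin'_apply _ _ _⟩
  have hBs : LinearMap.IsSymm B := by
    constructor
    intro a b
    rw [RingHom.id_apply, hB, hB, Finset.sum_comm]
    refine Finset.sum_congr rfl (fun i _ => Finset.sum_congr rfl (fun j _ => ?_))
    rw [hS.apply]
    ring
  obtain ⟨v, hv⟩ := LinearMap.BilinForm.exists_orthogonal_basis hBs
  have horth : ∀ i j, i ≠ j → B (v i) (v j) = 0 := fun i j hij => hv hij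
  have hn : Module.finrank F (Fin n → F) = n := Module.finrank_fin_fun F
  set w : Module.Basis (Fin n) F (Fin n → F) := v.reindex (finCongr hn) with hw
  have horth' : ∀ i j, i ≠ j → B (w i) (w j) = 0 := by
    intro i j hij
    rw [hw, Module.Basis.reindex_apply, Module.Basis.reindex_apply]
    exact horth _ _ (fun h => hij ((finCongr hn).symm.injective h))
  refine ⟨Matrix.of fun i j => w j i, fun i => B (w i) (w i), ?_, ?_⟩
  · have h1 := (Pi.basisFun F (Fin n)).isUnit_det w
    have h2 : (Pi.basisFun F (Fin n)).det w = (Matrix.of fun i j => w j i).det := by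
      rw [Module.Basis.det_apply]
      congr 1
    rw [h2] at h1
    exact h1.ne_zero
  · ext i j
    have h1 : (((Matrix.of fun i j => w j i)ᵀ * S * (Matrix.of fun i j => w j i)) i j) =
        B (w i) (w j) := by
      rw [hB, Matrix.mul_apply]
      simp only [Matrix.mul_apply, Matrix.transpose_apply, Matrix.of_apply, Finset.sum_mul]
      rw [Finset.sum_comm]
    rw [h1]
    by_cases hij : i = j
    · rw [hij, Matrix.diagonal_apply_eq]
    · rw [Matrix.diagonal_apply_ne _ hij, horth' i j hij]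

/-- the quadratic form -/
def qf {R : Type*} [CommRing R] {n : ℕ} (S : Matrix (Fin n) (Fin n) R) (z : Fin n → R) : R :=
  ∑ i, ∑ j, S i j * z i * z j

theorem qf_eq {R : Type*} [CommRing R] {n : ℕ} (S : Matrix (Fin n) (Fin n) R) (z : Fin n → R) :
    qf S z = z ⬝ᵥ (S *ᵥ z) := by
  unfold qf
  simp only [dotProduct, Matrix.mulVec, Finset.mul_sum]
  refine Finset.sum_congr rfl fun i _ => Finset.sum_congr rfl fun j _ => ?_
  ring

theorem qf_mulVec {R : Type*} [CommRing R] {n : ℕ} (S P : Matrix (Fin n) (Fin n) R)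
    (y : Fin n → R) : qf S (P *ᵥ y) = qf (Pᵀ * S * P) y := by
  rw [qf_eq, qf_eq, ← Matrix.mulVec_mulVec, ← Matrix.mulVec_mulVec, Matrix.dotProduct_mulVec,
    Matrix.dotProduct_mulVec y, Matrix.vecMul_transpose, ← Matrix.dotProduct_mulVec]

theorem qf_diag {R : Type*} [CommRing R] {n : ℕ} (d y : Fin n → R) :
    qf (Matrix.diagonal d) y = ∑ i, d i * y i ^ 2 := by
  rw [qf_eq]
  simp only [Matrix.mulVec_diagonal, dotProduct]
  refine Finset.sum_congr rfl fun i _ => ?_
  ring

section
variable {F : Type*} [Field F] [Fintype F] [DecidableEq F]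

/-- **the number of zeros** -/
theorem zeros (hF : ringChar F ≠ 2) (k : ℕ) (S : Matrix (Fin (2 * k + 2)) (Fin (2 * k + 2)) F)
    (hS : S.IsSymm)
    (hc : ∀ (P : Matrix (Fin (2 * k + 2)) (Fin (2 * k + 2)) F) (d : Fin (2 * k + 2) → F),
      P.det ≠ 0 → Pᵀ * S * P = Matrix.diagonal d → ∀ i j, d i = 0 → d j = 0 → i = j) :
    ((univ.filter fun z : Fin (2 * k + 2) → F => qf S z = 0).card : ℤ) =
      (Fintype.card F : ℤ) ^ (2 * k + 1) + quadraticChar F ((-1) ^ (k + 1) * S.det) *
      ((Fintype.card F : ℤ) ^ (k + 1) - (Fintype.card F : ℤ) ^ k) := by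
  have h2 : (2 : F) ≠ 0 := Ring.two_ne_zero hF
  obtain ⟨P, d, hP, hd⟩ := diagonalize h2 S hS
  have h1 := M_zero hF k d (hc P d hP hd)
  have h3 : ∏ i, d i = S.det * P.det ^ 2 := by
    have := congrArg Matrix.det hd
    rw [Matrix.det_mul, Matrix.det_mul, Matrix.det_transpose, Matrix.det_diagonal] at this
    rw [← this]; ring
  have h4 : quadraticChar F ((-1) ^ (k + 1) * ∏ i, d i) =
      quadraticChar F ((-1) ^ (k + 1) * S.det) := by
    rw [h3, ← mul_assoc, qc_mul_sq hP]
  rw [h4] at h1
  rw [← h1]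
  unfold M
  rw [Finset.card_filter]
  push_cast
  have hu : IsUnit P := by
    rw [Matrix.isUnit_iff_isUnit_det]
    exact hP.isUnit
  have hbij : Function.Bijective (fun y : Fin (2 * k + 2) → F => P *ᵥ y) := by
    rw [← Finite.injective_iff_bijective]
    exact Matrix.mulVec_injective_iff_isUnit.2 hu
  symm
  refine Fintype.sum_bijective _ hbij _ _ fun y => ?_
  rw [qf_mulVec, hd, qf_diag]

end

end Pool.Agent.U41.QB
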